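import Pool.Agent.K6.H78.FR.Lim
import Pool.Agent.Y288.KE.Abs

/-!
The number of the points of bounded height.
-/

set_option autoImplicit false
set_option linter.unusedSectionVars false
set_option linter.deprecated false
set_option linter.unusedVariables false

namespace Pool.Agent.K6.H78.FR

open Finset MeasureTheory Filter Topology

variable {B ι G T : Type} [Fintype B] [Fintype ι] [Group G] [DecidableEq B] [DecidableEq ι]

open Pool.Agent.Y714.KE (yy)

/-- the points -/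
def Sys.Pts (S : Sys B ι G T) : Set T := {P | ∃ z, S.Good z ∧ S.pt z = P}

/-- the dimension of a block -/
def dm (bk : ι → B) (β : B) : ℕ := (univ.filter fun i => bk i = β).card

theorem tt_dm (bk : ι → B) (y : B → ℝ) : tt bk y = ∏ β, y β ^ dm bk β := by
  unfold tt dm
  rw [← Finset.prod_fiberwise_of_maps_to (g := bk) (t := univ) (fun i _ => mem_univ _)]
  refine prod_congr rfl fun β _ => ?_
  rw [prod_congr rfl (g := fun _ => y β) (fun i hi => by rw [(mem_filter.1 hi).2]), prod_const]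

/-- the weights -/
noncomputable def wt (bk : ι → B) (β : B) : ℝ := (dm bk β : ℝ) / 2

/-- the sides -/
def aa : B → B → ℝ := fun l i => if l = i then 1 else 0

theorem aa_sum (l : B) (y : B → ℝ) : ∑ i, aa l i * y i = y l := by
  unfold aa
  simp

/-- the scales of a cell -/
noncomputable def ysc (bk : ι → B) (i₀ : B) (k : B → ℤ) (t : ℝ) : B → ℝ :=
  fun β => Real.exp (yy (wt bk) i₀ k t β)

theorem ysc_pos (bk : ι → B) (i₀ : B) (k : B → ℤ) (t : ℝ) (β : B) : 0 < ysc bk i₀ k t β :=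
  Real.exp_pos _

theorem wt_pos {bk : ι → B} (h : ∀ β, ∃ i, bk i = β) (β : B) : 0 < wt bk β := by
  unfold wt dm
  obtain ⟨i, hi⟩ := h β
  have : 0 < (univ.filter fun i => bk i = β).card := card_pos.2 ⟨i, by simp [hi]⟩
  have h2 : (0 : ℝ) < ((univ.filter fun i => bk i = β).card : ℝ) := by exact_mod_cast this
  positivity

theorem yy_sum {bk : ι → B} (h : ∀ β, ∃ i, bk i = β) (i₀ : B) (k : B → ℤ) (t : ℝ) :
    ∑ β, wt bk β * yy (wt bk) i₀ k t β = (1 / 2) * Real.log t := by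
  rw [← Finset.add_sum_erase univ _ (mem_univ i₀)]
  have h1 : ∀ β ∈ univ.erase i₀, wt bk β * yy (wt bk) i₀ k t β = wt bk β * k β := by
    intro β hβ
    unfold yy
    rw [if_neg (ne_of_mem_erase hβ)]
  rw [sum_congr rfl h1]
  unfold yy
  rw [if_pos rfl, mul_div_cancel₀ _ (wt_pos h i₀).ne']
  ring

theorem ysc_tt {bk : ι → B} (h : ∀ β, ∃ i, bk i = β) (i₀ : B) (k : B → ℤ) {t : ℝ} (ht : 0 < t) :
    tt bk (ysc bk i₀ k t) = t := by
  rw [tt_dm]
  unfold ysc
  have h1 : ∀ β, Real.exp (yy (wt bk) i₀ k t β) ^ dm bk β =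
      Real.exp (2 * (wt bk β * yy (wt bk) i₀ k t β)) := by
    intro β
    rw [← Real.exp_nat_mul]
    congr 1
    unfold wt
    ring
  simp only [h1]
  rw [← Real.exp_sum, ← mul_sum, yy_sum h]
  rw [show 2 * (1 / 2 * Real.log t) = Real.log t by ring, Real.exp_log ht]

variable {S : Sys B ι G T}

theorem mem_cell_iff (hS : S.Ok) {H : T → ℝ} {k : B → ℤ} {t : ℝ} (ht : 0 < t) {z : ι → ℤ}
    (hz : S.Good z) : S.pt z ∈ S.Cl H (ysc S.bk S.i₀ k t) ↔ H (S.pt z) ≤ t ∧
      ∀ β, β ≠ S.i₀ → ⌊S.lam β (cr z)⌋ = k β := by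
  rw [hS.mem_Cl hz, ysc_tt hS.surj _ _ ht, and_comm]
  refine and_congr Iff.rfl ?_
  have hy := ysc_pos S.bk S.i₀ k t
  have h1 : ∀ β, β ≠ S.i₀ → S.lam β (sd S.bk (ysc S.bk S.i₀ k t) z) = S.lam β (cr z) - k β := by
    intro β hβ
    rw [sd_eq, hS.lam_sc β hβ _ (fun β => inv_pos.2 (hy β)) _ (hS.good_om z hz), Real.log_inv]
    have : Real.log (ysc S.bk S.i₀ k t β) = k β := by
      unfold ysc yy
      rw [Real.log_exp, if_neg hβ]
    rw [this]
    ring
  constructor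
  · rintro ⟨_, h2⟩ β hβ
    have h3 := h2 β hβ
    rw [h1 β hβ] at h3
    rw [Int.floor_eq_iff]
    constructor <;> linarith
  · intro h2
    refine ⟨hS.sd_om hy hz, fun β hβ => ?_⟩
    rw [h1 β hβ]
    have h3 := Int.floor_eq_iff.1 (h2 β hβ)
    constructor <;> linarith

/-- **the asymptotic formula** -/
theorem asm (hS : S.Ok) {Φ : (ι → ℝ) → ℝ} (hΦ : S.RH Φ) {S₀ : Finset ℕ} {f : (ι → ℤ) → ℝ}
    (hf : S.FH S₀ f) {H : T → ℝ} (hH : S.HH Φ f H)
    (hcr : ∃ C : ℝ, 0 < C ∧ ∀ y : B → ℝ, (∀ β, 0 < y β) → (S.Cl H y).Finite ∧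
      ((S.Cl H y).ncard : ℝ) ≤ C * tt S.bk y ∧ ((S.Cl H y).Nonempty → ∀ β, 1 ≤ C * y β))
    (hreg : ∀ η : ℝ, 0 < η → ∃ (Do Dc : Set (ι → ℝ)) (Γ : Finset G), S.Reg Do Dc Γ ∧
      ∃ L : ℝ, 0 < L ∧ ∀ y : B → ℝ, (∀ β, L ≤ y β) → ((S.NR H Dc y).ncard : ℝ) ≤ η * tt S.bk y)
    (hlow : ∃ (Do Dc : Set (ι → ℝ)) (Γ : Finset G), S.Reg Do Dc Γ ∧
      ∀ M : ℝ, 0 < M → ∃ u ∈ Do, Φ u * M < 1) :
    ∃ c : ℝ, 0 < c ∧ Tendsto (fun X : ℝ => ({P | P ∈ S.Pts ∧ H P ≤ X}.ncard : ℝ) /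
      (X * Real.log X ^ (Fintype.card B - 1))) atTop (𝓝 c) := by
  classical
  obtain ⟨C, hC, hcc⟩ := hcr
  have hfin : ∀ y : B → ℝ, (∀ β, 0 < y β) → (S.Cl H y).Finite := fun y hy => (hcc y hy).1
  obtain ⟨Do₁, Dc₁, Γ₁, hR₁, hlow₁⟩ := hlow
  obtain ⟨c₀, L₀, hc₀, hL₀, hlw⟩ := cell_lower hS hΦ hf hH hfin hR₁ hlow₁
  have hw := wt_pos hS.surj
  have hB0 : (0 : ℝ) < Fintype.card B := by
    exact_mod_cast Fintype.card_pos_iff.2 ⟨S.i₀⟩
  obtain ⟨Vp, hVp, habs⟩ := Pool.Agent.Y288.KE.abs Pool.Agent.Y592.KE.LPC.lpc B B S.i₀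
    (wt S.bk) aa hw (by
      refine ⟨∑ j, 1 / (2 * wt S.bk j), fun y hy hl i => ?_⟩
      have h0 : ∀ j, 0 ≤ y j := fun j => by
        have := hl j
        rwa [aa_sum] at this
      rw [abs_of_nonneg (h0 i)]
      have h1 : wt S.bk i * y i ≤ 1 / 2 := by
        rw [← hy]
        exact single_le_sum (f := fun j => wt S.bk j * y j)
          (fun j _ => mul_nonneg (hw j).le (h0 j)) (mem_univ i)
      have h2 : y i ≤ 1 / (2 * wt S.bk i) := by
        rw [le_div_iff₀ (by have := hw i; positivity)]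
        linarith
      refine h2.trans (single_le_sum (f := fun j => 1 / (2 * wt S.bk j)) (fun j _ => ?_) (mem_univ i))
      have := hw j
      positivity) (by
      refine ⟨fun j => 1 / (2 * Fintype.card B * wt S.bk j), ?_, fun l => ?_⟩
      · have h1 : ∀ j, wt S.bk j * (1 / (2 * Fintype.card B * wt S.bk j)) =
            1 / (2 * Fintype.card B) := by
          intro j
          have := (hw j).ne'
          field_simp
        simp only [h1]
        rw [sum_const, card_univ, nsmul_eq_mul]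
        field_simp
      · rw [aa_sum]
        have := hw l
        positivity)
  set F : (B → ℤ) → ℝ → ℝ := fun k t => ((S.Cl H (ysc S.bk S.i₀ k t)).ncard : ℝ) with hF
  -- uniform statement about cells
  have hcells : ∀ L : ℝ, 0 < L → ∀ ε : ℝ, 0 < ε → ∃ t₀ : ℝ, 1 ≤ t₀ ∧ ∀ t, t₀ ≤ t → ∀ k : B → ℤ,
      (∀ l, ε * Real.log t ≤ ∑ i, aa l i * yy (wt S.bk) S.i₀ k t i) →
      ∀ β, L ≤ ysc S.bk S.i₀ k t β := by
    intro L hL ε hε
    refine ⟨max 1 (Real.exp (Real.log L / ε)), le_max_left _ _, fun t ht k hk β => ?_⟩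
    have ht1 : 1 ≤ t := (le_max_left _ _).trans ht
    have ht0 : 0 < t := by linarith
    have h1 : Real.log L / ε ≤ Real.log t := by
      rw [Real.le_log_iff_exp_le ht0]
      exact (le_max_right _ _).trans ht
    rw [div_le_iff₀ hε] at h1
    have h2 := hk β
    rw [aa_sum] at h2
    rw [← Real.exp_log hL]
    exact Real.exp_le_exp.2 (by linarith)
  have hlim : ∀ η : ℝ, 0 < η → ∃ ℓ : ℝ, c₀ - η ≤ ℓ ∧ ∀ ε : ℝ, 0 < ε → ∃ t₀ : ℝ, ∀ t, t₀ ≤ t →
      ∀ k : B → ℤ, k S.i₀ = 0 →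
      (∀ l, ε * Real.log t ≤ ∑ i, aa l i * yy (wt S.bk) S.i₀ k t i) → |F k t / t - ℓ| ≤ η := by
    intro η hη
    obtain ⟨ℓ, L, hL, h⟩ := cell_limit hS hΦ hf hH hfin hreg η hη
    refine ⟨ℓ, ?_, fun ε hε => ?_⟩
    · have h1 := h (fun _ => max L L₀) (fun _ => le_max_left _ _)
      have h2 := hlw (fun _ => max L L₀) (fun _ => le_max_right _ _)
      have h3 : 0 < tt S.bk (fun _ => max L L₀) := tt_pos fun _ => by positivity
      rw [← le_div_iff₀ h3] at h2
      have h4 := (abs_le.1 h1).2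
      linarith
    · obtain ⟨t₀, ht₀, ht⟩ := hcells L hL ε hε
      refine ⟨t₀, fun t htt k hk0 hk => ?_⟩
      have h3 := h _ (ht t htt k hk)
      rw [ysc_tt hS.surj _ _ (by linarith : 0 < t)] at h3
      exact h3
  have hlog : ∀ x : ℝ, 1 ≤ C * Real.exp x → -Real.log C ≤ x := by
    intro x hx
    have h5 := Real.log_le_log one_pos hx
    rw [Real.log_one, Real.log_mul hC.ne' (Real.exp_pos _).ne', Real.log_exp] at h5
    linarith
  have hne : ∀ (k : B → ℤ) (t : ℝ), (S.Cl H (ysc S.bk S.i₀ k t)).Nonempty →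
      ∀ β, -Real.log C ≤ yy (wt S.bk) S.i₀ k t β := fun k t h β =>
    hlog _ ((hcc _ (ysc_pos S.bk S.i₀ k t)).2.2 h β)
  obtain ⟨c, hc0, hc1, hc2⟩ := habs F (max C (Real.log C)) (fun _ _ => Nat.cast_nonneg _) (by
      intro k t ht
      have h1 := (hcc _ (ysc_pos S.bk S.i₀ k t)).2.1
      rw [ysc_tt hS.surj _ _ (by linarith : 0 < t)] at h1
      exact h1.trans (mul_le_mul_of_nonneg_right (le_max_left _ _) (by linarith))) (by
      intro k t ht hne' l
      have h2 : (S.Cl H (ysc S.bk S.i₀ k t)).Nonempty := by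
        rw [Set.nonempty_iff_ne_empty]
        intro h0
        apply hne'
        rw [hF]
        simp only
        rw [h0, Set.ncard_empty, Nat.cast_zero]
      have h5 := hne k t h2 l
      have h7 : Real.log C ≤ max C (Real.log C) := le_max_right _ _
      rw [aa_sum]
      linarith) (by
      intro η hη
      obtain ⟨ℓ, _, h⟩ := hlim η hη
      exact ⟨ℓ, h⟩)
  have hcpos : 0 < c := by
    obtain ⟨ℓ, hℓ, h⟩ := hlim (c₀ / 4) (by positivity)
    have h1 := hc1 (c₀ / 4) ℓ (by positivity) h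
    have h2 := (abs_le.1 h1).1
    linarith
  refine ⟨c * Vp, by positivity, ?_⟩
  refine hc2.congr' ?_
  filter_upwards [eventually_ge_atTop 1] with t ht
  have ht0 : 0 < t := by linarith
  congr 1
  -- the partition
  set A : Set T := {P | P ∈ S.Pts ∧ H P ≤ t} with hA
  have hex : ∀ P : T, ∃ z, P ∈ S.Pts → S.Good z ∧ S.pt z = P := by
    intro P
    by_cases h : P ∈ S.Pts
    · obtain ⟨z, hz⟩ := h
      exact ⟨z, fun _ => hz⟩
    · exact ⟨0, fun h' => absurd h' h⟩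
  choose ρ hρ using hex
  set ix : T → (B → ℤ) := fun P β => if β = S.i₀ then 0 else ⌊S.lam β (cr (ρ P))⌋ with hix
  have hix0 : ∀ P, ix P S.i₀ = 0 := fun P => by rw [hix]; simp
  have hmem : ∀ (k : B → ℤ), k S.i₀ = 0 → ∀ P : T,
      P ∈ S.Cl H (ysc S.bk S.i₀ k t) ↔ P ∈ A ∧ ix P = k := by
    intro k hk P
    constructor
    · intro hP
      have hPA : P ∈ S.Pts := by
        obtain ⟨z, h1, h2, _⟩ := hP
        exact ⟨z, h1, h2⟩
      obtain ⟨h1, h2⟩ := hρ P hPA
      have h3 := (mem_cell_iff hS (k := k) (H := H) ht0 h1).1 (by rw [h2]; exact hP)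
      rw [h2] at h3
      refine ⟨⟨hPA, h3.1⟩, ?_⟩
      funext β
      rw [hix]
      simp only
      by_cases hβ : β = S.i₀
      · rw [if_pos hβ, hβ, hk]
      · rw [if_neg hβ]
        exact h3.2 β hβ
    · rintro ⟨⟨h1, h2⟩, h3⟩
      obtain ⟨h4, h5⟩ := hρ P h1
      have h6 := (mem_cell_iff hS (k := k) (H := H) ht0 h4).2 ⟨by rw [h5]; exact h2, fun β hβ => by
        rw [← h3, hix]
        simp only
        rw [if_neg hβ]⟩
      rw [h5] at h6
      exact h6
  -- the indices of the nonempty cells are bounded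
  obtain ⟨Mn, hMn⟩ : ∃ Mn : ℕ, ∀ P ∈ A, ∀ β, |ix P β| ≤ Mn := by
    set R : ℝ := |Real.log C| + (∑ j, |Real.log C| * wt S.bk j + (1 / 2) * Real.log t) *
      ∑ j, 1 / wt S.bk j with hR
    obtain ⟨n₁, hn₁⟩ := exists_nat_ge R
    refine ⟨n₁, fun P hP β => ?_⟩
    have h1 : P ∈ S.Cl H (ysc S.bk S.i₀ (ix P) t) := (hmem (ix P) (hix0 P) P).2 ⟨hP, rfl⟩
    have h2 := hne _ _ ⟨P, h1⟩
    have h3 := yy_sum hS.surj S.i₀ (ix P) t
    have hlt : 0 ≤ Real.log t := Real.log_nonneg ht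
    have hc1 : 0 ≤ |Real.log C| := abs_nonneg _
    have hc2 := le_abs_self (Real.log C)
    have h4 : ∀ j, -(|Real.log C| * wt S.bk j) ≤ wt S.bk j * yy (wt S.bk) S.i₀ (ix P) t j := by
      intro j
      have := h2 j
      have := hw j
      nlinarith
    have hS1 : 0 ≤ ∑ j, |Real.log C| * wt S.bk j := sum_nonneg fun j _ => mul_nonneg hc1 (hw j).le
    have hS2 : 0 ≤ ∑ j, 1 / wt S.bk j := sum_nonneg fun j _ => by have := hw j; positivity
    by_cases hβ : β = S.i₀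
    · rw [hβ, hix0]; simp
    have h5 : yy (wt S.bk) S.i₀ (ix P) t β = ix P β := by
      unfold yy
      rw [if_neg hβ]
    have h6 : wt S.bk β * (ix P β : ℝ) ≤ ∑ j, |Real.log C| * wt S.bk j + (1 / 2) * Real.log t := by
      rw [← h5]
      have h7 : ∑ j, (wt S.bk j * yy (wt S.bk) S.i₀ (ix P) t j + |Real.log C| * wt S.bk j) =
          (1 / 2) * Real.log t + ∑ j, |Real.log C| * wt S.bk j := by
        rw [sum_add_distrib, h3]
      have h8 := single_le_sum (f := fun j => wt S.bk j * yy (wt S.bk) S.i₀ (ix P) t j +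
        |Real.log C| * wt S.bk j) (fun j _ => by have := h4 j; linarith) (mem_univ β)
      rw [h7] at h8
      have := mul_nonneg hc1 (hw β).le
      linarith
    have h7 : |(ix P β : ℝ)| ≤ n₁ := by
      refine le_trans ?_ hn₁
      rw [abs_le]
      have h8 := h2 β
      rw [h5] at h8
      have hprod : 0 ≤ (∑ j, |Real.log C| * wt S.bk j + (1 / 2) * Real.log t) *
          ∑ j, 1 / wt S.bk j := by positivity
      constructor
      · rw [hR]; linarith
      · have h9 : (ix P β : ℝ) ≤ (∑ j, |Real.log C| * wt S.bk j + (1 / 2) * Real.log t) *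
            (1 / wt S.bk β) := by
          rw [mul_one_div, le_div_iff₀ (hw β)]
          linarith
        have h10 : 1 / wt S.bk β ≤ ∑ j, 1 / wt S.bk j :=
          single_le_sum (f := fun j => 1 / wt S.bk j) (fun j _ => by have := hw j; positivity)
            (mem_univ β)
        have h11 : (∑ j, |Real.log C| * wt S.bk j + (1 / 2) * Real.log t) * (1 / wt S.bk β) ≤
            (∑ j, |Real.log C| * wt S.bk j + (1 / 2) * Real.log t) * ∑ j, 1 / wt S.bk j :=
          mul_le_mul_of_nonneg_left h10 (by positivity)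
        rw [hR]
        linarith
    exact_mod_cast h7
  set KF : Finset (B → ℤ) := (Fintype.piFinset fun _ => Finset.Icc (-(Mn : ℤ)) Mn).filter
    fun k => k S.i₀ = 0 with hKF
  have hKm : ∀ P ∈ A, ix P ∈ KF := by
    intro P hP
    rw [hKF, mem_filter, Fintype.mem_piFinset]
    exact ⟨fun β => Finset.mem_Icc.2 (abs_le.1 (hMn P hP β)), hix0 P⟩
  have hAf : A.Finite := by
    have h1 : A ⊆ ⋃ k ∈ KF, S.Cl H (ysc S.bk S.i₀ k t) := by
      intro P hP
      rw [Set.mem_iUnion₂]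
      exact ⟨ix P, hKm P hP, (hmem (ix P) (hix0 P) P).2 ⟨hP, rfl⟩⟩
    refine Set.Finite.subset ?_ h1
    exact Set.Finite.biUnion (Finset.finite_toSet _) fun k _ => hfin _ (ysc_pos S.bk S.i₀ k t)
  have hsum : (A.ncard : ℝ) = ∑ k ∈ KF, F k t := by
    rw [Set.ncard_eq_toFinset_card _ hAf, Finset.card_eq_sum_card_fiberwise (f := ix)
      (t := KF) (fun P hP => by
        rw [Set.Finite.coe_toFinset] at hP
        exact Finset.mem_coe.2 (hKm P hP))]
    push_cast
    refine sum_congr rfl fun k hk => ?_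
    rw [hF]
    simp only
    rw [← Set.ncard_coe_finset]
    congr 2
    ext P
    rw [hmem k (mem_filter.1 hk).2, Finset.mem_coe, mem_filter, Set.Finite.mem_toFinset]
  rw [hsum]
  show ∑ᶠ k ∈ {k : B → ℤ | k S.i₀ = 0}, F k t = _
  rw [finsum_mem_eq_sum_of_inter_support_eq (fun k => F k t) (t := KF)]
  ext k
  constructor
  · rintro ⟨h1, h2⟩
    refine ⟨?_, h2⟩
    have h3 : (S.Cl H (ysc S.bk S.i₀ k t)).Nonempty := by
      rw [Set.nonempty_iff_ne_empty]
      intro h0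
      apply h2
      rw [hF]
      simp only
      rw [h0, Set.ncard_empty, Nat.cast_zero]
    obtain ⟨P, hP⟩ := h3
    obtain ⟨h5, h6⟩ := (hmem k h1 P).1 hP
    rw [← h6]
    exact hKm P h5
  · rintro ⟨h1, h2⟩
    exact ⟨(mem_filter.1 h1).2, h2⟩

end Pool.Agent.K6.H78.FR
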