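import Pool.Agent.Y86.KE.Elm
import Pool.Agent.Y592.KE.Lpc
import Pool.Agent.Y220.KE.Pad
import Pool.Agent.Y379.KF.Crt
import Pool.Agent.Y988.KF.Prod

/-!
A general frame for the counting of rational points by integer points of an affine space modulo a
discrete group.
-/

set_option autoImplicit false
set_option linter.unusedSectionVars false
set_option linter.deprecated false
set_option linter.unusedVariables false

namespace Pool.Agent.K6.H78.FR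

open Finset MeasureTheory

/-- integer vectors as real vectors -/
def cr {ι : Type} (z : ι → ℤ) : ι → ℝ := fun i => (z i : ℝ)

/-- scaling of the blocks -/
def sc {B ι : Type} (bk : ι → B) (a : B → ℝ) (u : ι → ℝ) : ι → ℝ := fun i => a (bk i) * u i

/-- scaled integer vectors -/
noncomputable def sd {B ι : Type} (bk : ι → B) (y : B → ℝ) (z : ι → ℤ) : ι → ℝ :=
  fun i => (z i : ℝ) / y (bk i)

/-- the expected size -/
noncomputable def tt {B ι : Type} [Fintype ι] (bk : ι → B) (y : B → ℝ) : ℝ := ∏ i, y (bk i)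

/-- the data -/
structure Sys (B ι G T : Type) where
  bk : ι → B
  i₀ : B
  Tp : (p : ℕ) → Set (ι → ZMod p)
  Nz : (ι → ℤ) → Prop
  Om : Set (ι → ℝ)
  act : G → (ι → ℝ) → (ι → ℝ)
  actZ : G → (ι → ℤ) → (ι → ℤ)
  pt : (ι → ℤ) → T
  lam : B → (ι → ℝ) → ℝ

variable {B ι G T : Type} [Fintype B] [Fintype ι] [Group G] [DecidableEq B] [DecidableEq ι]

/-- the local condition -/
def Sys.Lc (S : Sys B ι G T) (p : ℕ) (z : ι → ℤ) : Prop := (fun i => (z i : ZMod p)) ∈ S.Tp p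

/-- good integer vectors -/
def Sys.Good (S : Sys B ι G T) (z : ι → ℤ) : Prop := (∀ p : ℕ, p.Prime → S.Lc p z) ∧ S.Nz z

/-- the fundamental cell -/
def Sys.AA (S : Sys B ι G T) : Set (ι → ℝ) :=
  {u | u ∈ S.Om ∧ ∀ β, β ≠ S.i₀ → 0 ≤ S.lam β u ∧ S.lam β u < 1}

/-- the assumptions -/
structure Sys.Ok (S : Sys B ι G T) : Prop where
  surj : ∀ β, ∃ i, S.bk i = β
  tp_ne : ∀ p : ℕ, p.Prime → (S.Tp p).Nonempty
  tp_card : ∃ C : ℝ, ∀ p : ℕ, p.Prime →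
    (((S.Tp p)ᶜ).ncard : ℝ) * (p : ℝ) ^ 2 ≤ C * (p : ℝ) ^ Fintype.card ι
  om_open : IsOpen S.Om
  om_sc : ∀ a : B → ℝ, (∀ β, 0 < a β) → ∀ u ∈ S.Om, sc S.bk a u ∈ S.Om
  good_om : ∀ z, S.Good z → cr z ∈ S.Om
  act_lin : ∀ g, ∃ L : (ι → ℝ) ≃ₗ[ℝ] (ι → ℝ), ∀ u, S.act g u = L u
  act_cr : ∀ g z, cr (S.actZ g z) = S.act g (cr z)
  act_sc : ∀ g a u, S.act g (sc S.bk a u) = sc S.bk a (S.act g u)
  act_mul : ∀ g h u, S.act (g * h) u = S.act g (S.act h u)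
  act_one : ∀ u, S.act 1 u = u
  act_om : ∀ g, ∀ u ∈ S.Om, S.act g u ∈ S.Om
  good_act : ∀ g z, S.Good z → S.Good (S.actZ g z)
  free : ∀ g z, S.Good z → S.actZ g z = z → g = 1
  pt_iff : ∀ z z', S.Good z → S.Good z' → (S.pt z' = S.pt z ↔ ∃ g, z' = S.actZ g z)
  lam_sc : ∀ β, β ≠ S.i₀ → ∀ a : B → ℝ, (∀ β, 0 < a β) → ∀ u ∈ S.Om,
    S.lam β (sc S.bk a u) = S.lam β u + Real.log (a β)
  lam_act : ∀ β, β ≠ S.i₀ → ∀ g, ∀ u ∈ S.Om, S.lam β (S.act g u) = S.lam β u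

/-- real heights -/
structure Sys.RH (S : Sys B ι G T) (Φ : (ι → ℝ) → ℝ) : Prop where
  cont : ContinuousOn Φ S.Om
  pos : ∀ u ∈ S.Om, 0 < Φ u
  scal : ∀ a : B → ℝ, (∀ β, 0 < a β) → ∀ u ∈ S.Om, Φ (sc S.bk a u) = tt S.bk a * Φ u

/-- the finite part of the height -/
structure Sys.FH (S : Sys B ι G T) (S₀ : Finset ℕ) (f : (ι → ℤ) → ℝ) : Prop where
  prime : ∀ p ∈ S₀, p.Prime
  bd : ∃ m₁ M₁ : ℝ, 0 < m₁ ∧ ∀ z, (∀ p ∈ S₀, S.Lc p z) → m₁ ≤ f z ∧ f z ≤ M₁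
  apx : ∀ ε : ℝ, 0 < ε → ∃ q₁ : ℕ, 0 < q₁ ∧ ∀ z z', (∀ p ∈ S₀, S.Lc p z) → (∀ p ∈ S₀, S.Lc p z') →
    (∀ i, (z i : ZMod q₁) = (z' i : ZMod q₁)) → |f z - f z'| ≤ ε

/-- the height of the points -/
def Sys.HH (S : Sys B ι G T) (Φ : (ι → ℝ) → ℝ) (f : (ι → ℤ) → ℝ) (H : T → ℝ) : Prop :=
  ∀ z, S.Good z → H (S.pt z) = Φ (cr z) * f z

/-- the points of a cell -/
def Sys.Cl (S : Sys B ι G T) (H : T → ℝ) (y : B → ℝ) : Set T :=
  {P | ∃ z, S.Good z ∧ S.pt z = P ∧ sd S.bk y z ∈ S.AA ∧ H P ≤ tt S.bk y}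

/-- regions -/
structure Sys.Reg (S : Sys B ι G T) (Do Dc : Set (ι → ℝ)) (Γ : Finset G) : Prop where
  op : IsOpen Do
  cl : IsClosed Dc
  bd : Bornology.IsBounded Dc
  sub : Do ⊆ Dc
  aa : Do ⊆ S.AA
  null : volume (Dc \ Do) = 0
  fin : ∀ u ∈ Dc, ∀ g, S.act g u ∈ Dc → g ∈ Γ
  err : ∃ C : ℝ, 0 < C ∧ ∀ P₀ : ℕ, 1 ≤ P₀ → ∃ L : ℝ, 0 < L ∧ ∀ y : B → ℝ, (∀ β, L ≤ y β) →
    {z : ι → ℤ | sd S.bk y z ∈ Do ∧ ((∃ p : ℕ, p.Prime ∧ P₀ < p ∧ ¬ S.Lc p z) ∨ ¬ S.Nz z)}.Finite ∧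
    ({z : ι → ℤ | sd S.bk y z ∈ Do ∧ ((∃ p : ℕ, p.Prime ∧ P₀ < p ∧ ¬ S.Lc p z) ∨
      ¬ S.Nz z)}.ncard : ℝ) ≤ C / P₀ * tt S.bk y

/-! ### basics -/

theorem tt_pos {bk : ι → B} {y : B → ℝ} (hy : ∀ β, 0 < y β) : 0 < tt bk y :=
  prod_pos fun i _ => hy _

theorem sd_eq {bk : ι → B} {y : B → ℝ} (z : ι → ℤ) : sd bk y z = sc bk (fun β => (y β)⁻¹) (cr z) := by
  funext i
  unfold sd sc cr
  rw [div_eq_inv_mul]

theorem cr_eq {bk : ι → B} {y : B → ℝ} (hy : ∀ β, 0 < y β) (z : ι → ℤ) :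
    cr z = sc bk y (sd bk y z) := by
  funext i
  unfold sd sc cr
  have := (hy (bk i)).ne'
  field_simp

variable {S : Sys B ι G T}

theorem Sys.Ok.sd_om (hS : S.Ok) {y : B → ℝ} (hy : ∀ β, 0 < y β) {z : ι → ℤ} (hz : S.Good z) :
    sd S.bk y z ∈ S.Om := by
  rw [sd_eq]
  exact hS.om_sc _ (fun β => inv_pos.2 (hy β)) _ (hS.good_om z hz)

theorem Sys.Ok.sd_act (hS : S.Ok) (g : G) {y : B → ℝ} (z : ι → ℤ) :
    sd S.bk y (S.actZ g z) = S.act g (sd S.bk y z) := by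
  rw [sd_eq, sd_eq, hS.act_sc, hS.act_cr]

theorem Sys.Ok.act_inv (hS : S.Ok) (g : G) (u : ι → ℝ) : S.act g⁻¹ (S.act g u) = u := by
  rw [← hS.act_mul, inv_mul_cancel, hS.act_one]

theorem Sys.Ok.act_cont (hS : S.Ok) (g : G) : Continuous (S.act g) := by
  obtain ⟨L, hL⟩ := hS.act_lin g
  have h : S.act g = L := funext hL
  rw [h]
  exact L.toLinearMap.continuous_of_finiteDimensional

theorem cr_inj {z z' : ι → ℤ} (h : cr z = cr z') : z = z' := by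
  funext i
  have := congrFun h i
  unfold cr at this
  exact_mod_cast this

theorem Sys.Ok.actZ_mul (hS : S.Ok) (g h : G) (z : ι → ℤ) :
    S.actZ (g * h) z = S.actZ g (S.actZ h z) := by
  apply cr_inj
  rw [hS.act_cr, hS.act_mul, hS.act_cr, hS.act_cr]

theorem Sys.Ok.actZ_one (hS : S.Ok) (z : ι → ℤ) : S.actZ 1 z = z := by
  apply cr_inj
  rw [hS.act_cr, hS.act_one]

theorem Sys.Ok.actZ_inj (hS : S.Ok) {g h : G} {z : ι → ℤ} (hz : S.Good z)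
    (he : S.actZ g z = S.actZ h z) : g = h := by
  have h1 : S.actZ (h⁻¹ * g) z = z := by
    rw [hS.actZ_mul, he, ← hS.actZ_mul, inv_mul_cancel, hS.actZ_one]
  have h2 := hS.free _ _ hz h1
  exact (inv_mul_eq_one.1 h2).symm

theorem Sys.Ok.height (hS : S.Ok) {Φ : (ι → ℝ) → ℝ} (hΦ : S.RH Φ) {f : (ι → ℤ) → ℝ} {H : T → ℝ}
    (hH : S.HH Φ f H) {y : B → ℝ} (hy : ∀ β, 0 < y β) {z : ι → ℤ} (hz : S.Good z) :
    H (S.pt z) ≤ tt S.bk y ↔ Φ (sd S.bk y z) * f z ≤ 1 := by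
  have h1 : Φ (cr z) = tt S.bk y * Φ (sd S.bk y z) := by
    rw [cr_eq (bk := S.bk) hy z, hΦ.scal y hy _ (hS.sd_om hy hz)]
  have h3 := tt_pos (bk := S.bk) hy
  rw [hH z hz, h1, mul_assoc]
  constructor
  · intro h4
    by_contra hc
    rw [not_le] at hc
    nlinarith
  · intro h4
    nlinarith

theorem Sys.Ok.aa_act (hS : S.Ok) {g : G} {u : ι → ℝ} (hu : u ∈ S.AA) : S.act g u ∈ S.AA := by
  refine ⟨hS.act_om g u hu.1, fun β hβ => ?_⟩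
  rw [hS.lam_act β hβ g u hu.1]
  exact hu.2 β hβ

theorem Sys.Ok.mem_Cl (hS : S.Ok) {H : T → ℝ} {y : B → ℝ} {z : ι → ℤ} (hz : S.Good z) :
    S.pt z ∈ S.Cl H y ↔ sd S.bk y z ∈ S.AA ∧ H (S.pt z) ≤ tt S.bk y := by
  constructor
  · rintro ⟨z', h1, h2, h3, h4⟩
    refine ⟨?_, h4⟩
    obtain ⟨g, hg⟩ := (hS.pt_iff z' z h1 hz).1 h2.symm
    rw [hg, hS.sd_act]
    exact hS.aa_act h3
  · rintro ⟨h1, h2⟩
    exact ⟨z, hz, rfl, h1, h2⟩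

/-- the primes up to `P` -/
def Pr (P : ℕ) : Finset ℕ := (range (P + 1)).filter Nat.Prime

theorem mem_Pr {P p : ℕ} : p ∈ Pr P ↔ p ≤ P ∧ p.Prime := by
  unfold Pr
  rw [mem_filter, mem_range]
  constructor
  · rintro ⟨h1, h2⟩; exact ⟨by omega, h2⟩
  · rintro ⟨h1, h2⟩; exact ⟨by omega, h2⟩

theorem Sys.Ok.card_pos (hS : S.Ok) : Fintype.card ι ≠ 0 := by
  obtain ⟨i, _⟩ := hS.surj S.i₀
  exact (Fintype.card_pos_iff.2 ⟨i⟩).ne'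

theorem levels_null (hS : S.Ok) {Φ : (ι → ℝ) → ℝ} (hΦ : S.RH Φ) {c : ℝ}
    (hc : 0 < c) : volume {u | u ∈ S.Om ∧ Φ u = c} = 0 := by
  refine Pool.Agent.Y220.KE.levels volume hS.om_open hΦ.cont (d := Fintype.card ι) hS.card_pos ?_ hc
  intro l hl u hu
  have h1 : l • u = sc S.bk (fun _ => l) u := by
    funext i
    rfl
  rw [h1]
  refine ⟨hS.om_sc _ (fun _ => hl) _ hu, ?_⟩
  rw [hΦ.scal _ (fun _ => hl) u hu]
  congr 1
  unfold tt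
  rw [prod_const, card_univ]

/-- finiteness of the integer points of a bounded region -/
theorem fin_bdd {bk : ι → B} {D : Set (ι → ℝ)} (hD : Bornology.IsBounded D) {y : B → ℝ}
    (hy : ∀ β, 0 < y β) : {z : ι → ℤ | sd bk y z ∈ D}.Finite := by
  classical
  rw [isBounded_iff_forall_norm_le] at hD
  obtain ⟨R, hR⟩ := hD
  set P : Finset (ι → ℤ) := Fintype.piFinset fun i => Icc (-⌈R * y (bk i)⌉) ⌈R * y (bk i)⌉ with hP
  refine P.finite_toSet.subset ?_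
  intro z hz
  rw [hP, mem_coe, Fintype.mem_piFinset]
  intro i
  have h1 := (norm_le_pi_norm (sd bk y z) i).trans (hR _ hz)
  unfold sd at h1
  rw [Real.norm_eq_abs, abs_div, abs_of_pos (hy (bk i)), div_le_iff₀ (hy (bk i))] at h1
  rw [Finset.mem_Icc]
  obtain ⟨h2, h3⟩ := abs_le.1 h1
  have h4 := Int.le_ceil (R * y (bk i))
  constructor
  · have h5 : (-(⌈R * y (bk i)⌉ : ℝ)) ≤ z i := by linarith
    exact_mod_cast h5
  · have h5 : (z i : ℝ) ≤ ⌈R * y (bk i)⌉ := by linarith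
    exact_mod_cast h5

/-- the count with local conditions at finitely many primes -/
theorem count_elm (hS : S.Ok) {Φ : (ι → ℝ) → ℝ} (hΦ : S.RH Φ)
    {S₀ : Finset ℕ} {f : (ι → ℤ) → ℝ} (hf : S.FH S₀ f) {D : Set (ι → ℝ)}
    (hDb : Bornology.IsBounded D) (hDo : IsOpen D) (hDn : volume (frontier D) = 0)
    (hDO : D ⊆ S.Om) (P₀ : ℕ) (hP₀ : ∀ p ∈ S₀, p ≤ P₀) (η : ℝ) (hη : 0 < η) :
    ∃ ℓ L : ℝ, 0 < L ∧ ∀ y : B → ℝ, (∀ β, L ≤ y β) →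
      |({z : ι → ℤ | (∀ p ∈ Pr P₀, S.Lc p z) ∧ sd S.bk y z ∈ D ∧
        Φ (sd S.bk y z) * f z ≤ 1}.ncard : ℝ) / tt S.bk y - ℓ| ≤ η := by
  classical
  obtain ⟨m₁, M₁, hm₁, hbd⟩ := hf.bd
  obtain ⟨ε, hε, hE⟩ := Pool.Agent.Y86.KE.elm Pool.Agent.Y592.KE.LPC.lpc ι
    D Φ m₁ M₁ 1 hDb hDo hDn (hΦ.cont.mono hDO) (fun u hu => hΦ.pos u (hDO hu))
    (fun c hc => measure_mono_null (t := {u | u ∈ S.Om ∧ Φ u = c})
      (fun u hu => ⟨hDO hu.1, hu.2⟩) (levels_null hS hΦ hc)) hm₁ one_pos η hη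
  obtain ⟨q₁, hq₁, hq₁'⟩ := hf.apx ε hε
  set q : ℕ := q₁ * ∏ p ∈ Pr P₀, p with hq
  have hqpos : 0 < q := Nat.mul_pos hq₁ (prod_pos fun p hp => (mem_Pr.1 hp).2.pos)
  have hdvd : ∀ p ∈ Pr P₀, p ∣ q := fun p hp =>
    (dvd_prod_of_mem (fun p => p) hp).trans (dvd_mul_left _ _)
  set U : Set (ι → ZMod q) := {t | ∀ p ∈ Pr P₀, (fun i => ((t i).cast : ZMod p)) ∈ S.Tp p}
    with hU
  have hUm : ∀ z : ι → ℤ, (fun i => (z i : ZMod q)) ∈ U ↔ ∀ p ∈ Pr P₀, S.Lc p z := by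
    intro z
    rw [hU, Set.mem_setOf_eq]
    refine forall₂_congr fun p hp => ?_
    have h1 : (fun i => (((z i : ZMod q)).cast : ZMod p)) = fun i => (z i : ZMod p) := by
      funext i
      exact ZMod.cast_intCast (hdvd p hp) (z i)
    simp only
    rw [h1]
    rfl
  have hS₀ : ∀ z : ι → ℤ, (∀ p ∈ Pr P₀, S.Lc p z) → ∀ p ∈ S₀, S.Lc p z :=
    fun z hz p hp => hz p (mem_Pr.2 ⟨hP₀ p hp, hf.prime p hp⟩)
  obtain ⟨ℓ, L, hL, h⟩ := hE q hqpos U (fun z => ∀ p ∈ S₀, S.Lc p z) f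
    {Y | ∃ y : B → ℝ, Y = fun i => y (S.bk i)} (fun Y _ z _ hz _ => hS₀ z ((hUm z).1 hz))
    (fun z hz _ => hbd z hz) (by
      intro z z' hz hz' _ hc
      refine hq₁' z z' hz hz' fun i => ?_
      have h1 := hc i
      have h2 : (q : ℤ) ∣ z i - z' i := by
        rw [← ZMod.intCast_zmod_eq_zero_iff_dvd]
        push_cast
        rw [h1, sub_self]
      have h3 : (q₁ : ℤ) ∣ z i - z' i :=
        (Int.natCast_dvd_natCast.2 (Dvd.intro _ rfl)).trans h2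
      have h4 := (ZMod.intCast_zmod_eq_zero_iff_dvd (z i - z' i) q₁).2 h3
      push_cast at h4
      exact sub_eq_zero.1 h4)
  refine ⟨ℓ, max L 1, by positivity, fun y hy => ?_⟩
  have h1 := h (fun i => y (S.bk i)) ⟨y, rfl⟩ (fun i => (le_max_left _ _).trans (hy _))
  have h2 : {z : ι → ℤ | (∀ p ∈ Pr P₀, S.Lc p z) ∧ sd S.bk y z ∈ D ∧
        Φ (sd S.bk y z) * f z ≤ 1} = {z : ι → ℤ | (fun i => (z i : ZMod q)) ∈ U ∧
      (fun i => (z i : ℝ) / y (S.bk i)) ∈ D ∧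
      Φ (fun i => (z i : ℝ) / y (S.bk i)) * f z ≤ 1} := by
    ext z
    rw [Set.mem_setOf_eq, Set.mem_setOf_eq, hUm]
    rfl
  rw [h2]
  exact h1

end Pool.Agent.K6.H78.FR
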