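import Pool.Agent.K6.H78.FR.Bas

/-!
The limit of the number of the points of a cell.
-/

set_option autoImplicit false
set_option linter.unusedSectionVars false
set_option linter.deprecated false
set_option linter.unusedVariables false

namespace Pool.Agent.K6.H78.FR

open Finset MeasureTheory

variable {B ι G T : Type} [Fintype B] [Fintype ι] [Group G] [DecidableEq B] [DecidableEq ι]
  {S : Sys B ι G T}

/-- the part of the region with a given set of group elements -/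
def Sys.ES (S : Sys B ι G T) (Do Dc : Set (ι → ℝ)) (Γ E : Finset G) : Set (ι → ℝ) :=
  {u | u ∈ Do ∧ ∀ g ∈ Γ, (g ∈ E → S.act g u ∈ Do) ∧ (g ∉ E → S.act g u ∉ Dc)}

/-- the bad set -/
def Sys.NN (S : Sys B ι G T) (Do Dc : Set (ι → ℝ)) (Γ : Finset G) : Set (ι → ℝ) :=
  (Dc \ Do) ∪ ⋃ g ∈ Γ, (Dc ∩ S.act g ⁻¹' (Dc \ Do))

variable {Do Dc : Set (ι → ℝ)} {Γ : Finset G}

theorem Sys.Reg.nn_closed (hS : S.Ok) (hR : S.Reg Do Dc Γ) : IsClosed (S.NN Do Dc Γ) := by
  have h1 : IsClosed (Dc \ Do) := hR.cl.sdiff hR.op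
  refine h1.union ?_
  exact Set.Finite.isClosed_biUnion Γ.finite_toSet fun g _ => hR.cl.inter (h1.preimage (hS.act_cont g))

theorem act_null (hS : S.Ok) (g : G) {A : Set (ι → ℝ)} (hA : volume A = 0) :
    volume (S.act g ⁻¹' A) = 0 := by
  obtain ⟨L, hL⟩ := hS.act_lin g
  have h : S.act g = L := funext hL
  rw [h]
  have h2 := Measure.addHaar_preimage_linearMap (volume : Measure (ι → ℝ)) (f := (L : (ι → ℝ) →ₗ[ℝ] (ι → ℝ)))
    (LinearEquiv.isUnit_det' L).ne_zero A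
  have h3 : (⇑(L : (ι → ℝ) →ₗ[ℝ] (ι → ℝ))) = ⇑L := rfl
  rw [h3, hA, mul_zero] at h2
  exact h2

theorem Sys.Reg.nn_null (hS : S.Ok) (hR : S.Reg Do Dc Γ) : volume (S.NN Do Dc Γ) = 0 := by
  refine measure_union_null hR.null ?_
  refine (measure_biUnion_null_iff (I := (Γ : Set G)) Γ.countable_toSet).2 ?_
  intro g _
  exact measure_mono_null Set.inter_subset_right (act_null hS g hR.null)

theorem Sys.Reg.nn_bdd (hR : S.Reg Do Dc Γ) : Bornology.IsBounded (S.NN Do Dc Γ) := by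
  refine hR.bd.subset ?_
  rintro u (hu | hu)
  · exact hu.1
  · rw [Set.mem_iUnion₂] at hu
    obtain ⟨g, _, h⟩ := hu
    exact h.1

theorem Sys.Reg.nn_front (hS : S.Ok) (hR : S.Reg Do Dc Γ) : volume (frontier (S.NN Do Dc Γ)) = 0 :=
  measure_mono_null (hR.nn_closed hS).frontier_subset (hR.nn_null hS)

theorem Sys.Reg.es_open (hS : S.Ok) (hR : S.Reg Do Dc Γ) (E : Finset G) :
    IsOpen (S.ES Do Dc Γ E) := by
  classical
  have h : S.ES Do Dc Γ E = Do ∩ ⋂ g ∈ Γ, {u | (g ∈ E → S.act g u ∈ Do) ∧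
      (g ∉ E → S.act g u ∉ Dc)} := by
    ext u
    simp only [Sys.ES, Set.mem_setOf_eq, Set.mem_inter_iff, Set.mem_iInter]
  rw [h]
  refine hR.op.inter (Set.Finite.isOpen_biInter Γ.finite_toSet fun g _ => ?_)
  have h2 : {u | (g ∈ E → S.act g u ∈ Do) ∧ (g ∉ E → S.act g u ∉ Dc)} =
      if g ∈ E then S.act g ⁻¹' Do else S.act g ⁻¹' Dcᶜ := by
    ext u
    by_cases hg : g ∈ E <;> simp [hg]
  rw [h2]
  split_ifs
  · exact hR.op.preimage (hS.act_cont g)
  · exact hR.cl.isOpen_compl.preimage (hS.act_cont g)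

theorem Sys.Reg.es_front (hS : S.Ok) (hR : S.Reg Do Dc Γ) (E : Finset G) :
    volume (frontier (S.ES Do Dc Γ E)) = 0 := by
  refine measure_mono_null ?_ (hR.nn_null hS)
  rw [(hR.es_open hS E).frontier_eq]
  rintro u ⟨h1, h2⟩
  have hsub : S.ES Do Dc Γ E ⊆ Do := fun _ h => h.1
  have huc : u ∈ Dc := hR.cl.closure_subset_iff.2 hR.sub (closure_mono hsub h1)
  by_cases huo : u ∈ Do
  swap
  · exact Or.inl ⟨huc, huo⟩
  right
  rw [Set.mem_iUnion₂]
  by_contra hcon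
  push Not at hcon
  apply h2
  refine ⟨huo, fun g hg => ?_⟩
  have h3 : S.act g u ∉ Dc \ Do := by
    intro h4
    exact hcon g hg ⟨huc, h4⟩
  constructor
  · intro hgs
    have h4 : S.act g u ∈ closure Do := by
      have h5 : S.ES Do Dc Γ E ⊆ S.act g ⁻¹' Do := fun v hv => (hv.2 g hg).1 hgs
      have h6 := closure_mono h5 h1
      exact (hS.act_cont g).closure_preimage_subset Do h6
    have h5 : S.act g u ∈ Dc := hR.cl.closure_subset_iff.2 hR.sub h4
    by_contra h6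
    exact h3 ⟨h5, h6⟩
  · intro hgs h4
    have h5 : S.act g u ∈ Do := by
      by_contra h6
      exact h3 ⟨h4, h6⟩
    obtain ⟨v, hv1, hv2⟩ := mem_closure_iff.1 h1 _ (hR.op.preimage (hS.act_cont g)) h5
    exact (hv2.2 g hg).2 hgs (hR.sub hv1)

theorem Sys.Reg.es_bdd (hR : S.Reg Do Dc Γ) (E : Finset G) :
    Bornology.IsBounded (S.ES Do Dc Γ E) :=
  hR.bd.subset fun _ h => hR.sub h.1

/-- the integer points of a part of the region -/
def Sys.ZS (S : Sys B ι G T) (Φ : (ι → ℝ) → ℝ) (f : (ι → ℤ) → ℝ) (Do Dc : Set (ι → ℝ))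
    (Γ E : Finset G) (y : B → ℝ) : Set (ι → ℤ) :=
  {z | S.Good z ∧ sd S.bk y z ∈ S.ES Do Dc Γ E ∧ Φ (sd S.bk y z) * f z ≤ 1}

/-- all the regular integer points -/
def Sys.ZR (S : Sys B ι G T) (Φ : (ι → ℝ) → ℝ) (f : (ι → ℤ) → ℝ) (Do Dc : Set (ι → ℝ))
    (Γ : Finset G) (y : B → ℝ) : Set (ι → ℤ) :=
  {z | S.Good z ∧ sd S.bk y z ∈ Do ∧ (∀ g ∈ Γ, S.act g (sd S.bk y z) ∈ Dc →
    S.act g (sd S.bk y z) ∈ Do) ∧ Φ (sd S.bk y z) * f z ≤ 1}

open scoped Classical in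
/-- the set of the group elements of an integer point -/
noncomputable def Sys.sg (S : Sys B ι G T) (Dc : Set (ι → ℝ)) (Γ : Finset G) (y : B → ℝ)
    (z : ι → ℤ) : Finset G := Γ.filter fun g => S.act g (sd S.bk y z) ∈ Dc

theorem mem_ZS_iff {Φ : (ι → ℝ) → ℝ} {f : (ι → ℤ) → ℝ} (hR : S.Reg Do Dc Γ) {E : Finset G}
    (hE : E ⊆ Γ) {y : B → ℝ} {z : ι → ℤ} :
    z ∈ S.ZS Φ f Do Dc Γ E y ↔ z ∈ S.ZR Φ f Do Dc Γ y ∧ S.sg Dc Γ y z = E := by
  classical
  constructor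
  · rintro ⟨h1, ⟨h2, h3⟩, h4⟩
    refine ⟨⟨h1, h2, fun g hg hc => ?_, h4⟩, ?_⟩
    · by_cases hgs : g ∈ E
      · exact (h3 g hg).1 hgs
      · exact absurd hc ((h3 g hg).2 hgs)
    · ext g
      unfold Sys.sg
      rw [mem_filter]
      constructor
      · rintro ⟨hg, hc⟩
        by_contra hgs
        exact (h3 g hg).2 hgs hc
      · intro hgs
        exact ⟨hE hgs, hR.sub ((h3 g (hE hgs)).1 hgs)⟩
  · rintro ⟨⟨h1, h2, h3, h4⟩, rfl⟩
    refine ⟨h1, ⟨h2, fun g hg => ⟨fun hgs => ?_, fun hgs hc => ?_⟩⟩, h4⟩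
    · unfold Sys.sg at hgs
      rw [mem_filter] at hgs
      exact h3 g hg hgs.2
    · apply hgs
      unfold Sys.sg
      rw [mem_filter]
      exact ⟨hg, hc⟩

/-- the orbits -/
theorem orbit_count (hS : S.Ok) {Φ : (ι → ℝ) → ℝ} (hΦ : S.RH Φ) {f : (ι → ℤ) → ℝ} {H : T → ℝ}
    (hH : S.HH Φ f H) (hR : S.Reg Do Dc Γ) {y : B → ℝ} (hy : ∀ β, 0 < y β) :
    (S.ZR Φ f Do Dc Γ y).Finite ∧ (S.pt '' S.ZR Φ f Do Dc Γ y).Finite ∧
    ((S.pt '' S.ZR Φ f Do Dc Γ y).ncard : ℝ) =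
      ∑ E ∈ Γ.powerset, ((S.ZS Φ f Do Dc Γ E y).ncard : ℝ) / E.card := by
  classical
  have hfin : (S.ZR Φ f Do Dc Γ y).Finite :=
    (fin_bdd hR.bd hy).subset fun z hz => hR.sub hz.2.1
  have hfin2 := hfin.image S.pt
  refine ⟨hfin, hfin2, ?_⟩
  set Z := hfin.toFinset with hZ
  set w : (ι → ℤ) → ℝ := fun z => 1 / ((S.sg Dc Γ y z).card : ℝ) with hw
  have hmem : ∀ z, z ∈ Z ↔ z ∈ S.ZR Φ f Do Dc Γ y := fun z => Set.Finite.mem_toFinset _
  -- the sum over the points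
  have h1 : ∑ z ∈ Z, w z = ((S.pt '' S.ZR Φ f Do Dc Γ y).ncard : ℝ) := by
    rw [Set.ncard_eq_toFinset_card _ hfin2]
    have hmaps : ∀ z ∈ Z, S.pt z ∈ hfin2.toFinset := by
      intro z hz
      rw [Set.Finite.mem_toFinset]
      exact ⟨z, (hmem z).1 hz, rfl⟩
    rw [← Finset.sum_fiberwise_of_maps_to hmaps]
    have h2 : ∀ P ∈ hfin2.toFinset, ∑ z ∈ Z with S.pt z = P, w z = 1 := by
      intro P hP
      rw [Set.Finite.mem_toFinset] at hP
      obtain ⟨z₀, hz₀, rfl⟩ := hP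
      set u₀ := sd S.bk y z₀ with hu₀
      set E₀ := S.sg Dc Γ y z₀ with hE₀
      have hE₀m : ∀ g, g ∈ E₀ ↔ S.act g u₀ ∈ Dc := by
        intro g
        rw [hE₀]
        unfold Sys.sg
        rw [mem_filter]
        exact ⟨fun h => h.2, fun h => ⟨hR.fin u₀ (hR.sub hz₀.2.1) g h, h⟩⟩
      -- description of the fibre
      have hfib : (Z.filter fun z => S.pt z = S.pt z₀) = E₀.image fun g => S.actZ g z₀ := by
        ext z
        rw [mem_filter, mem_image, hmem]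
        constructor
        · rintro ⟨h3, h4⟩
          obtain ⟨g, hg⟩ := (hS.pt_iff z₀ z hz₀.1 h3.1).1 h4
          refine ⟨g, ?_, hg.symm⟩
          rw [hE₀m, hu₀, ← hS.sd_act, ← hg]
          exact hR.sub h3.2.1
        · rintro ⟨g, hg, rfl⟩
          rw [hE₀m] at hg
          have hgΓ := hR.fin u₀ (hR.sub hz₀.2.1) g hg
          have hgo := hz₀.2.2.1 g hgΓ hg
          have hgood := hS.good_act g z₀ hz₀.1
          have hpt : S.pt (S.actZ g z₀) = S.pt z₀ := (hS.pt_iff z₀ _ hz₀.1 hgood).2 ⟨g, rfl⟩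
          refine ⟨⟨hgood, ?_, ?_, ?_⟩, hpt⟩
          · rw [hS.sd_act]; exact hgo
          · intro g' hg' hc
            rw [hS.sd_act, ← hS.act_mul] at hc ⊢
            exact hz₀.2.2.1 _ (hR.fin u₀ (hR.sub hz₀.2.1) _ hc) hc
          · rw [← hS.height hΦ hH hy hgood, hpt, hS.height hΦ hH hy hz₀.1]
            exact hz₀.2.2.2
      rw [hfib, sum_image (fun g _ h _ he => hS.actZ_inj hz₀.1 he)]
      have h5 : ∀ g ∈ E₀, w (S.actZ g z₀) = 1 / (E₀.card : ℝ) := by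
        intro g hg
        rw [hw]
        simp only
        congr 2
        -- the sets of group elements have the same size
        have h6 : S.sg Dc Γ y (S.actZ g z₀) = E₀.image fun h => h * g⁻¹ := by
          ext h
          unfold Sys.sg
          rw [mem_filter, mem_image, hS.sd_act, ← hS.act_mul]
          constructor
          · rintro ⟨h7, h8⟩
            refine ⟨h * g, (hE₀m _).2 h8, by group⟩
          · rintro ⟨h', h7, rfl⟩
            have h8 : h' * g⁻¹ * g = h' := by group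
            rw [h8]
            have h9 := (hE₀m _).1 h7
            refine ⟨?_, h9⟩
            apply hR.fin (S.act g u₀) ((hE₀m g).1 hg)
            rw [← hS.act_mul, h8]
            exact h9
        rw [h6, card_image_of_injective _ (mul_left_injective g⁻¹)]
      rw [sum_congr rfl h5, sum_const, nsmul_eq_mul]
      have h10 : (E₀.card : ℝ) ≠ 0 := by
        have : (1 : G) ∈ E₀ := by
          rw [hE₀m, hS.act_one]
          exact hR.sub hz₀.2.1
        exact_mod_cast (card_pos.2 ⟨1, this⟩).ne'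
      field_simp
    rw [sum_congr rfl h2, sum_const, nsmul_eq_mul, mul_one]
  rw [← h1]
  -- the sum over the sets of group elements
  have hmaps : ∀ z ∈ Z, S.sg Dc Γ y z ∈ Γ.powerset := by
    intro z _
    rw [mem_powerset]
    unfold Sys.sg
    exact filter_subset _ _
  rw [← Finset.sum_fiberwise_of_maps_to hmaps]
  refine sum_congr rfl fun E hE => ?_
  rw [mem_powerset] at hE
  have h2 : ∀ z ∈ Z.filter (fun z => S.sg Dc Γ y z = E), w z = 1 / (E.card : ℝ) := by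
    intro z hz
    rw [mem_filter] at hz
    rw [hw]
    simp only
    rw [hz.2]
  rw [sum_congr rfl h2, sum_const, nsmul_eq_mul]
  have h3 : S.ZS Φ f Do Dc Γ E y = (Z.filter fun z => S.sg Dc Γ y z = E : Finset (ι → ℤ)) := by
    ext z
    rw [mem_ZS_iff hR hE, mem_coe, mem_filter, hmem]
  rw [h3, Set.ncard_coe_finset]
  ring

/-- comparison of the cell with the regular points -/
theorem cell_cover (hS : S.Ok) {Φ : (ι → ℝ) → ℝ} (hΦ : S.RH Φ) {f : (ι → ℤ) → ℝ} {H : T → ℝ}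
    (hH : S.HH Φ f H) (hR : S.Reg Do Dc Γ) {y : B → ℝ} (hy : ∀ β, 0 < y β) :
    S.pt '' S.ZR Φ f Do Dc Γ y ⊆ S.Cl H y ∧
    S.Cl H y ⊆ (S.pt '' S.ZR Φ f Do Dc Γ y) ∪
      ({P | P ∈ S.Cl H y ∧ ∀ z, S.Good z → S.pt z = P → sd S.bk y z ∉ Dc} ∪
      S.pt '' {z | sd S.bk y z ∈ S.NN Do Dc Γ}) := by
  constructor
  · rintro _ ⟨z, ⟨h1, h2, h3, h4⟩, rfl⟩
    rw [hS.mem_Cl h1]
    exact ⟨hR.aa h2, (hS.height hΦ hH hy h1).2 h4⟩
  · intro P hP
    by_cases h1 : ∀ z, S.Good z → S.pt z = P → sd S.bk y z ∉ Dc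
    · exact Or.inr (Or.inl ⟨hP, h1⟩)
    push Not at h1
    obtain ⟨z, h2, rfl, h3⟩ := h1
    obtain ⟨h4, h5⟩ := (hS.mem_Cl h2).1 hP
    by_cases h6 : sd S.bk y z ∈ S.NN Do Dc Γ
    · exact Or.inr (Or.inr ⟨z, h6, rfl⟩)
    left
    refine ⟨z, ⟨h2, ?_, ?_, (hS.height hΦ hH hy h2).1 h5⟩, rfl⟩
    · by_contra h7
      exact h6 (Or.inl ⟨h3, h7⟩)
    · intro g hg hc
      by_contra h7
      apply h6
      right
      rw [Set.mem_iUnion₂]
      exact ⟨g, hg, h3, hc, h7⟩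

end Pool.Agent.K6.H78.FR
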