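import Pool.Agent.K6.H78.FR.Cel

/-!
The limit and the lower bound of the number of the points of a cell.
-/

set_option autoImplicit false
set_option linter.unusedSectionVars false
set_option linter.deprecated false
set_option linter.unusedVariables false

namespace Pool.Agent.K6.H78.FR

open Finset MeasureTheory

variable {B ι G T : Type} [Fintype B] [Fintype ι] [Group G] [DecidableEq B] [DecidableEq ι]
  {S : Sys B ι G T}

variable {Do Dc : Set (ι → ℝ)} {Γ : Finset G}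

/-- the bad integer points of a region -/
def Sys.EB (S : Sys B ι G T) (Do : Set (ι → ℝ)) (P₀ : ℕ) (y : B → ℝ) : Set (ι → ℤ) :=
  {z : ι → ℤ | sd S.bk y z ∈ Do ∧ ((∃ p : ℕ, p.Prime ∧ P₀ < p ∧ ¬ S.Lc p z) ∨ ¬ S.Nz z)}

theorem good_or {P₀ : ℕ} {y : B → ℝ} {z : ι → ℤ} (h1 : ∀ p ∈ Pr P₀, S.Lc p z)
    (h2 : sd S.bk y z ∈ Do) : S.Good z ∨ z ∈ S.EB Do P₀ y := by
  by_cases hg : S.Good z
  · exact Or.inl hg
  · right
    refine ⟨h2, ?_⟩
    unfold Sys.Good at hg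
    rw [not_and_or] at hg
    rcases hg with hg | hg
    · left
      push Not at hg
      obtain ⟨p, hp, hL⟩ := hg
      refine ⟨p, hp, ?_, hL⟩
      by_contra hc
      exact hL (h1 p (mem_Pr.2 ⟨by omega, hp⟩))
    · exact Or.inr hg

theorem exists_P₀ (S₀ : Finset ℕ) {C δ : ℝ} (hC : 0 < C) (hδ : 0 < δ) :
    ∃ P₀ : ℕ, 1 ≤ P₀ ∧ (∀ p ∈ S₀, p ≤ P₀) ∧ C / P₀ ≤ δ := by
  obtain ⟨n, hn⟩ := exists_nat_ge (C / δ)
  refine ⟨n + 1 + ∑ p ∈ S₀, p, by omega, fun p hp => ?_, ?_⟩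
  · have := single_le_sum (f := fun p : ℕ => p) (fun _ _ => Nat.zero_le _) hp
    omega
  · rw [div_le_iff₀ (by positivity)]
    push_cast
    rw [div_le_iff₀ hδ] at hn
    have h1 : (0 : ℝ) ≤ ∑ p ∈ S₀, (p : ℝ) := by positivity
    nlinarith

/-- the number of the integer points of a part of the region -/
theorem zs_limit (hS : S.Ok) {Φ : (ι → ℝ) → ℝ} (hΦ : S.RH Φ) {S₀ : Finset ℕ} {f : (ι → ℤ) → ℝ}
    (hf : S.FH S₀ f) (hR : S.Reg Do Dc Γ) (E : Finset G) (δ : ℝ) (hδ : 0 < δ) :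
    ∃ ℓ L : ℝ, 0 < L ∧ ∀ y : B → ℝ, (∀ β, L ≤ y β) →
      |((S.ZS Φ f Do Dc Γ E y).ncard : ℝ) / tt S.bk y - ℓ| ≤ δ := by
  classical
  obtain ⟨C, hC, herr⟩ := hR.err
  obtain ⟨P₀, hP₀1, hP₀S, hP₀C⟩ := exists_P₀ S₀ hC (half_pos hδ)
  obtain ⟨L₁, hL₁, h1⟩ := herr P₀ hP₀1
  obtain ⟨ℓ, L₂, hL₂, h2⟩ := count_elm hS hΦ hf (hR.es_bdd E) (hR.es_open hS E) (hR.es_front hS E)
    (fun u hu => (hR.aa hu.1).1) P₀ hP₀S (δ / 2) (half_pos hδ)
  refine ⟨ℓ, max L₁ L₂, by positivity, fun y hy => ?_⟩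
  have hy0 : ∀ β, 0 < y β := fun β => lt_of_lt_of_le hL₁ ((le_max_left _ _).trans (hy β))
  obtain ⟨hEf, hEc⟩ := h1 y fun β => (le_max_left _ _).trans (hy β)
  have hcount := h2 y fun β => (le_max_right _ _).trans (hy β)
  have ht0 := tt_pos (bk := S.bk) hy0
  set t := tt S.bk y with ht
  set Hs : Set (ι → ℤ) := {z : ι → ℤ | (∀ p ∈ Pr P₀, S.Lc p z) ∧ sd S.bk y z ∈ S.ES Do Dc Γ E ∧
        Φ (sd S.bk y z) * f z ≤ 1} with hHs
  have hsub1 : S.ZS Φ f Do Dc Γ E y ⊆ Hs := by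
    rintro z ⟨h1, h2, h3⟩
    exact ⟨fun p hp => h1.1 p (mem_Pr.1 hp).2, h2, h3⟩
  have hsub2 : Hs ⊆ S.ZS Φ f Do Dc Γ E y ∪ S.EB Do P₀ y := by
    rintro z ⟨h1, h2, h3⟩
    rcases good_or h1 h2.1 with h4 | h4
    · exact Or.inl ⟨h4, h2, h3⟩
    · exact Or.inr h4
  have hHf : Hs.Finite := (fin_bdd (hR.es_bdd E) hy0).subset fun z hz => hz.2.1
  have h3 : ((S.ZS Φ f Do Dc Γ E y).ncard : ℝ) ≤ Hs.ncard := by
    exact_mod_cast Set.ncard_le_ncard hsub1 hHf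
  have h4 : (Hs.ncard : ℝ) ≤ (S.ZS Φ f Do Dc Γ E y).ncard + (S.EB Do P₀ y).ncard := by
    exact_mod_cast (Set.ncard_le_ncard hsub2 ((hHf.subset hsub1).union hEf)).trans
      (Set.ncard_union_le _ _)
  have h5 : ((S.EB Do P₀ y).ncard : ℝ) ≤ δ / 2 * t :=
    hEc.trans (mul_le_mul_of_nonneg_right hP₀C ht0.le)
  rw [abs_le] at hcount ⊢
  obtain ⟨b1, b2⟩ := hcount
  rw [le_sub_iff_add_le, le_div_iff₀ ht0] at b1
  rw [sub_le_iff_le_add, div_le_iff₀ ht0] at b2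
  constructor
  · rw [le_sub_iff_add_le, le_div_iff₀ ht0]
    nlinarith
  · rw [sub_le_iff_le_add, div_le_iff₀ ht0]
    nlinarith

/-- the points without representative in the region -/
def Sys.NR (S : Sys B ι G T) (H : T → ℝ) (Dc : Set (ι → ℝ)) (y : B → ℝ) : Set T :=
  {P | P ∈ S.Cl H y ∧ ∀ z, S.Good z → S.pt z = P → sd S.bk y z ∉ Dc}

/-- **the limit in a cell** -/
theorem cell_limit (hS : S.Ok) {Φ : (ι → ℝ) → ℝ} (hΦ : S.RH Φ) {S₀ : Finset ℕ} {f : (ι → ℤ) → ℝ}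
    (hf : S.FH S₀ f) {H : T → ℝ} (hH : S.HH Φ f H)
    (hfin : ∀ y : B → ℝ, (∀ β, 0 < y β) → (S.Cl H y).Finite)
    (hreg : ∀ η : ℝ, 0 < η → ∃ (Do Dc : Set (ι → ℝ)) (Γ : Finset G), S.Reg Do Dc Γ ∧
      ∃ L : ℝ, 0 < L ∧ ∀ y : B → ℝ, (∀ β, L ≤ y β) → ((S.NR H Dc y).ncard : ℝ) ≤ η * tt S.bk y)
    (η : ℝ) (hη : 0 < η) : ∃ ℓ L : ℝ, 0 < L ∧ ∀ y : B → ℝ, (∀ β, L ≤ y β) →
      |((S.Cl H y).ncard : ℝ) / tt S.bk y - ℓ| ≤ η := by
  classical
  obtain ⟨Do, Dc, Γ, hR, L₀, hL₀, hnr⟩ := hreg (η / 4) (by positivity)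
  set n : ℝ := (Γ.powerset.card : ℝ) with hn
  have hn1 : 0 < n := by
    rw [hn, card_powerset]
    positivity
  have hδ : 0 < η / (2 * n) := by positivity
  have hZ := fun E : Finset G => zs_limit hS hΦ hf hR E (η / (2 * n)) hδ
  choose ℓ L hL hlim using hZ
  obtain ⟨Lb, hLb, hbd⟩ := Pool.Agent.Y592.KE.LPC.lpc ι (S.NN Do Dc Γ) hR.nn_bdd
    (hR.nn_closed hS).measurableSet (hR.nn_front hS) 1 one_pos Set.univ (η / 4) (by positivity)
  have hvol : volume.real (S.NN Do Dc Γ) = 0 := by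
    rw [measureReal_def, hR.nn_null hS]; rfl
  refine ⟨∑ E ∈ Γ.powerset, ℓ E / E.card, ∑ E ∈ Γ.powerset, L E + (L₀ + Lb), ?_, fun y hy => ?_⟩
  · have : 0 ≤ ∑ E ∈ Γ.powerset, L E := sum_nonneg fun E _ => (hL E).le
    positivity
  have hLs : 0 ≤ ∑ E ∈ Γ.powerset, L E := sum_nonneg fun E _ => (hL E).le
  have hy0 : ∀ β, 0 < y β := fun β => by have := hy β; linarith
  have hyL₀ : ∀ β, L₀ ≤ y β := fun β => by have := hy β; linarith
  have hyLb : ∀ β, Lb ≤ y β := fun β => by have := hy β; linarith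
  have hyE : ∀ E ∈ Γ.powerset, ∀ β, L E ≤ y β := fun E hE β => by
    have h1 := hy β
    have h2 := single_le_sum (f := L) (fun E _ => (hL E).le) hE
    linarith
  have ht0 := tt_pos (bk := S.bk) hy0
  set t := tt S.bk y with ht
  obtain ⟨hZf, hPf, hcnt⟩ := orbit_count hS hΦ hH hR hy0
  obtain ⟨hc1, hc2⟩ := cell_cover hS hΦ hH hR hy0
  have hCf := hfin y hy0
  set A := S.pt '' S.ZR Φ f Do Dc Γ y with hA
  set F₂ : Set (ι → ℤ) := {z | sd S.bk y z ∈ S.NN Do Dc Γ} with hF₂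
  have hF₂f : F₂.Finite := fin_bdd hR.nn_bdd hy0
  have hF₂c : (F₂.ncard : ℝ) ≤ η / 4 * t := by
    have h1 := hbd (fun i => y (S.bk i)) fun i => hyLb _
    rw [hvol, zero_mul, zero_div, sub_zero] at h1
    have h2 : {z : ι → ℤ | (fun i => (z i : ZMod 1)) ∈ (Set.univ : Set (ι → ZMod 1)) ∧
        (fun i => (z i : ℝ) / y (S.bk i)) ∈ S.NN Do Dc Γ} = F₂ := by
      ext z
      simp only [Set.mem_setOf_eq, Set.mem_univ, true_and]
      rfl
    rw [h2] at h1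
    have h3 : ∏ i, y (S.bk i) = t := rfl
    rw [h3, abs_of_nonneg (by positivity), div_le_iff₀ ht0] at h1
    exact h1
  have hNf : (S.NR H Dc y).Finite := hCf.subset fun P hP => hP.1
  have hNc := hnr y hyL₀
  -- the comparison
  have e1 : (A.ncard : ℝ) ≤ (S.Cl H y).ncard := by
    exact_mod_cast Set.ncard_le_ncard hc1 hCf
  have e2 : ((S.Cl H y).ncard : ℝ) ≤ A.ncard + ((S.NR H Dc y).ncard + F₂.ncard) := by
    have h1 := Set.ncard_le_ncard hc2 (hPf.union (hNf.union (hF₂f.image _)))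
    have h2 := Set.ncard_union_le A (S.NR H Dc y ∪ S.pt '' F₂)
    have h3 := Set.ncard_union_le (S.NR H Dc y) (S.pt '' F₂)
    have h4 : (S.pt '' F₂).ncard ≤ F₂.ncard := Set.ncard_image_le hF₂f
    have h5 : (S.Cl H y).ncard ≤ (A ∪ (S.NR H Dc y ∪ S.pt '' F₂)).ncard := h1
    exact_mod_cast (by omega : (S.Cl H y).ncard ≤ A.ncard + ((S.NR H Dc y).ncard + F₂.ncard))
  -- the main term
  have e3 : |(A.ncard : ℝ) / t - ∑ E ∈ Γ.powerset, ℓ E / E.card| ≤ η / 2 := by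
    rw [hcnt, sum_div, ← sum_sub_distrib]
    refine (abs_sum_le_sum_abs _ _).trans ?_
    have h1 : ∀ E ∈ Γ.powerset, |((S.ZS Φ f Do Dc Γ E y).ncard : ℝ) / E.card / t - ℓ E / E.card| ≤
        η / (2 * n) := by
      intro E hE
      have h2 : ((S.ZS Φ f Do Dc Γ E y).ncard : ℝ) / E.card / t - ℓ E / E.card =
          (((S.ZS Φ f Do Dc Γ E y).ncard : ℝ) / t - ℓ E) * (1 / (E.card : ℝ)) := by ring
      rw [h2, abs_mul]
      have h3 := hlim E y (hyE E hE)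
      have h4 : |1 / (E.card : ℝ)| ≤ 1 := by
        rw [abs_of_nonneg (by positivity)]
        rcases Nat.eq_zero_or_pos E.card with h5 | h5
        · rw [h5]; simp
        · rw [div_le_one (by exact_mod_cast h5)]
          exact_mod_cast h5
      calc _ ≤ (η / (2 * n)) * 1 := mul_le_mul h3 h4 (abs_nonneg _) hδ.le
        _ = _ := mul_one _
    refine (sum_le_sum h1).trans ?_
    rw [sum_const, nsmul_eq_mul, ← hn]
    apply le_of_eq
    field_simp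
  rw [abs_le] at e3 ⊢
  obtain ⟨g1, g2⟩ := e3
  have e4 : ((S.Cl H y).ncard : ℝ) / t ≤ A.ncard / t + η / 2 := by
    rw [div_le_iff₀ ht0, add_mul, div_mul_cancel₀ _ ht0.ne']
    linarith
  have e5 : (A.ncard : ℝ) / t ≤ (S.Cl H y).ncard / t := by
    apply div_le_div_of_nonneg_right e1 ht0.le
  constructor <;> linarith

/-- **the lower bound in a cell** -/
theorem cell_lower (hS : S.Ok) {Φ : (ι → ℝ) → ℝ} (hΦ : S.RH Φ) {S₀ : Finset ℕ} {f : (ι → ℤ) → ℝ}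
    (hf : S.FH S₀ f) {H : T → ℝ} (hH : S.HH Φ f H)
    (hfin : ∀ y : B → ℝ, (∀ β, 0 < y β) → (S.Cl H y).Finite)
    (hR : S.Reg Do Dc Γ) (hlow : ∀ M : ℝ, 0 < M → ∃ u ∈ Do, Φ u * M < 1) :
    ∃ c₀ L : ℝ, 0 < c₀ ∧ 0 < L ∧ ∀ y : B → ℝ, (∀ β, L ≤ y β) →
      c₀ * tt S.bk y ≤ (S.Cl H y).ncard := by
  classical
  obtain ⟨m₁, M₁, hm₁, hbd⟩ := hf.bd
  set M₂ : ℝ := max M₁ 1 with hM₂
  have hM₂0 : 0 < M₂ := by positivity
  obtain ⟨u₀, hu₀, hu₀'⟩ := hlow M₂ hM₂0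
  have hDO : Do ⊆ S.Om := fun u hu => (hR.aa hu).1
  obtain ⟨r, hr, hball⟩ : ∃ r : ℝ, 0 < r ∧ ∀ u ∈ Metric.ball u₀ r, u ∈ Do ∧ Φ u * M₂ < 1 := by
    have h1 : Do ∈ nhds u₀ := hR.op.mem_nhds hu₀
    have h2 : ContinuousAt (fun u => Φ u * M₂) u₀ :=
      ((hΦ.cont.mono hDO).continuousAt h1).mul continuousAt_const
    have h3 : ∀ᶠ u in nhds u₀, Φ u * M₂ < 1 := h2.eventually (gt_mem_nhds hu₀')
    obtain ⟨r, hr, h4⟩ := Metric.eventually_nhds_iff_ball.1 (Filter.Eventually.and h1 h3)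
    exact ⟨r, hr, h4⟩
  set 𝔹 : Set (ι → ℝ) := Metric.ball u₀ r with h𝔹
  have hvol : 0 < volume.real 𝔹 := by
    rw [measureReal_def]
    exact ENNReal.toReal_pos (Metric.measure_ball_pos volume u₀ hr).ne' measure_ball_lt_top.ne
  -- the densities
  obtain ⟨Ct, hCt⟩ := hS.tp_card
  set dn : ℕ → ℝ := fun p => ((S.Tp p).ncard : ℝ) / (p : ℝ) ^ Fintype.card ι with hdn
  obtain ⟨c₁, hc₁, hdens⟩ : ∃ c : ℝ, 0 < c ∧ ∀ S' : Finset ℕ, (∀ p ∈ S', p.Prime) →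
      c ≤ ∏ p ∈ S', dn p := by
    refine Pool.Agent.Y988.KF.prod Ct dn fun p hp => ?_
    have : Fact p.Prime := ⟨hp⟩
    have hp0 : (0 : ℝ) < p := by exact_mod_cast hp.pos
    have hpn : (0 : ℝ) < (p : ℝ) ^ Fintype.card ι := by positivity
    have h1 : 0 < (S.Tp p).ncard := (Set.ncard_pos (Set.toFinite _)).2 (hS.tp_ne p hp)
    have htot : (S.Tp p).ncard + ((S.Tp p)ᶜ).ncard = p ^ Fintype.card ι := by
      rw [Set.ncard_add_ncard_compl, Nat.card_eq_fintype_card, Fintype.card_fun, ZMod.card]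
    have htotR : ((S.Tp p).ncard : ℝ) + (((S.Tp p)ᶜ).ncard : ℝ) = (p : ℝ) ^ Fintype.card ι := by
      exact_mod_cast htot
    refine ⟨div_pos (by exact_mod_cast h1) hpn, ?_, ?_⟩
    · rw [hdn]
      simp only
      rw [div_le_one hpn, ← htotR]
      have : (0 : ℝ) ≤ (((S.Tp p)ᶜ).ncard : ℝ) := Nat.cast_nonneg _
      linarith
    · rw [hdn]
      simp only
      have h3 : 1 - ((S.Tp p).ncard : ℝ) / (p : ℝ) ^ Fintype.card ι =
          (((S.Tp p)ᶜ).ncard : ℝ) / (p : ℝ) ^ Fintype.card ι := by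
        rw [eq_div_iff hpn.ne', sub_mul, div_mul_cancel₀ _ hpn.ne', ← htotR]
        ring
      rw [h3, div_le_div_iff₀ hpn (by positivity)]
      exact hCt p hp
  set vc : ℝ := volume.real 𝔹 * c₁ with hvc
  have hvc0 : 0 < vc := by positivity
  obtain ⟨C, hC, herr⟩ := hR.err
  obtain ⟨P₀, hP₀1, hP₀S, hP₀C⟩ := exists_P₀ S₀ hC (show 0 < vc / 4 by positivity)
  obtain ⟨L₂, hL₂, herr'⟩ := herr P₀ hP₀1
  obtain ⟨q, hq⟩ : ∃ q : ℕ, q = ∏ p ∈ Pr P₀, p := ⟨_, rfl⟩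
  obtain ⟨U, hU, hUc⟩ : ∃ U : Set (ι → ZMod q), (∀ z : ι → ℤ,
      (fun i => (z i : ZMod q)) ∈ U ↔ ∀ p ∈ Pr P₀, (fun i => (z i : ZMod p)) ∈ S.Tp p) ∧
      U.ncard = ∏ p ∈ Pr P₀, (S.Tp p).ncard := by
    subst hq
    exact Pool.Agent.Y379.KF.crt ι (Pr P₀)
      (fun p hp => (mem_Pr.1 hp).2) (fun p => S.Tp p)
  have hq0 : 0 < q := by
    rw [hq]
    exact prod_pos fun p hp => (mem_Pr.1 hp).2.pos
  have hUd : c₁ ≤ (U.ncard : ℝ) / (q : ℝ) ^ Fintype.card ι := by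
    have h1 : (U.ncard : ℝ) / (q : ℝ) ^ Fintype.card ι = ∏ p ∈ Pr P₀, dn p := by
      rw [hUc, hq]
      push_cast
      rw [← Finset.prod_pow, ← Finset.prod_div_distrib]
    rw [h1]
    exact hdens _ fun p hp => (mem_Pr.1 hp).2
  obtain ⟨L₃, hL₃, hlpc⟩ := Pool.Agent.Y592.KE.LPC.lpc ι 𝔹 Metric.isBounded_ball
    Metric.isOpen_ball.measurableSet ((convex_ball u₀ r).addHaar_frontier volume) q hq0 U (vc / 4)
    (by positivity)
  have hΓ : (0 : ℝ) < Γ.card := by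
    have : (1 : G) ∈ Γ := hR.fin u₀ (hR.sub hu₀) 1 (by rw [hS.act_one]; exact hR.sub hu₀)
    exact_mod_cast card_pos.2 ⟨1, this⟩
  refine ⟨vc / (2 * Γ.card), max L₂ L₃, by positivity, by positivity, fun y hy => ?_⟩
  have hy2 : ∀ β, L₂ ≤ y β := fun β => (le_max_left _ _).trans (hy β)
  have hy3 : ∀ β, L₃ ≤ y β := fun β => (le_max_right _ _).trans (hy β)
  have hy0 : ∀ β, 0 < y β := fun β => lt_of_lt_of_le hL₂ (hy2 β)
  obtain ⟨hEf, hEc⟩ := herr' y hy2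
  have h1 := hlpc (fun i => y (S.bk i)) fun i => hy3 _
  have ht0 := tt_pos (bk := S.bk) hy0
  have ht' : ∏ i, y (S.bk i) = tt S.bk y := rfl
  rw [ht'] at h1
  set t := tt S.bk y with ht
  set Bs : Set (ι → ℤ) := {z | (fun i => (z i : ZMod q)) ∈ U ∧
    (fun i => (z i : ℝ) / y (S.bk i)) ∈ 𝔹} with hBs
  set Gs : Set (ι → ℤ) := {z | S.Good z ∧ sd S.bk y z ∈ 𝔹} with hGs
  have hsub : Bs ⊆ Gs ∪ S.EB Do P₀ y := by
    rintro z ⟨hz1, hz2⟩
    have hz3 := hball _ hz2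
    rcases good_or (Do := Do) (fun p hp => (hU z).1 hz1 p hp) hz3.1 with h4 | h4
    · exact Or.inl ⟨h4, hz2⟩
    · exact Or.inr h4
  have hGf : Gs.Finite := by
    have h := fin_bdd (bk := S.bk) (D := 𝔹) Metric.isBounded_ball hy0
    exact h.subset fun z hz => hz.2
  have h2 : (Bs.ncard : ℝ) ≤ Gs.ncard + (S.EB Do P₀ y).ncard := by
    exact_mod_cast (Set.ncard_le_ncard hsub (hGf.union hEf)).trans (Set.ncard_union_le _ _)
  have h3 : (Gs.ncard : ℝ) ≤ Γ.card * (S.Cl H y).ncard := by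
    have hCf := hfin y hy0
    rw [Set.ncard_eq_toFinset_card _ hGf]
    have h5 := Finset.card_le_mul_card_image (f := S.pt) hGf.toFinset Γ.card (by
      intro P hP
      rw [mem_image] at hP
      obtain ⟨z₀, hz₀, rfl⟩ := hP
      rw [Set.Finite.mem_toFinset] at hz₀
      have h6 : (hGf.toFinset.filter fun z => S.pt z = S.pt z₀) ⊆ Γ.image fun g => S.actZ g z₀ := by
        intro z hz
        rw [mem_filter, Set.Finite.mem_toFinset] at hz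
        obtain ⟨g, hg⟩ := (hS.pt_iff z₀ z hz₀.1 hz.1.1).1 hz.2
        rw [mem_image]
        refine ⟨g, ?_, hg.symm⟩
        apply hR.fin _ (hR.sub (hball _ hz₀.2).1)
        rw [← hS.sd_act, ← hg]
        exact hR.sub (hball _ hz.1.2).1
      exact (card_le_card h6).trans card_image_le)
    have h7 : (hGf.toFinset.image S.pt).card ≤ (S.Cl H y).ncard := by
      rw [← Set.ncard_coe_finset]
      refine Set.ncard_le_ncard ?_ hCf
      intro P hP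
      rw [mem_coe, mem_image] at hP
      obtain ⟨z, hz, rfl⟩ := hP
      rw [Set.Finite.mem_toFinset] at hz
      rw [hS.mem_Cl hz.1]
      obtain ⟨h8, h9⟩ := hball _ hz.2
      refine ⟨hR.aa h8, (hS.height hΦ hH hy0 hz.1).2 ?_⟩
      have h10 := (hbd z fun p hp => hz.1.1 p (hf.prime p hp)).2
      have h11 := hΦ.pos _ (hDO h8)
      calc Φ (sd S.bk y z) * f z ≤ Φ (sd S.bk y z) * M₂ :=
            mul_le_mul_of_nonneg_left (h10.trans (le_max_left _ _)) h11.le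
        _ ≤ 1 := h9.le
    exact_mod_cast h5.trans (Nat.mul_le_mul_left _ h7)
  have h4 : ((S.EB Do P₀ y).ncard : ℝ) ≤ vc / 4 * t :=
    hEc.trans (mul_le_mul_of_nonneg_right hP₀C ht0.le)
  have h5 : vc - vc / 4 ≤ (Bs.ncard : ℝ) / t := by
    have h6 := (abs_le.1 h1).1
    have h7 : vc ≤ volume.real 𝔹 * U.ncard / (q : ℝ) ^ Fintype.card ι := by
      rw [hvc, mul_div_assoc]
      exact mul_le_mul_of_nonneg_left hUd hvol.le
    linarith
  rw [le_div_iff₀ ht0] at h5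
  rw [div_mul_eq_mul_div, div_le_iff₀ (by positivity)]
  nlinarith

end Pool.Agent.K6.H78.FR
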