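import Pool.Agent.K6.H78.FR.Bas
import Pool.Agent.K6.H78.MF.Prim

/-!
The p-adic parts of the height (general frame).
-/

set_option autoImplicit false
set_option linter.unusedSectionVars false
set_option linter.deprecated false
set_option linter.unusedVariables false

namespace Pool.Agent.K6.H78.FR

open Finset Filter Topology
open Pool.Agent.K6.H78.MF (Pm exists_pm pm_unique pm_iff)

variable {B ι G T : Type} [Fintype B] [Fintype ι] [Group G] [DecidableEq B] [DecidableEq ι]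
  {S : Sys B ι G T}

theorem FH_one : S.FH ∅ fun _ => 1 := by
  refine ⟨fun p hp => absurd hp (notMem_empty p), ⟨1, 1, one_pos, fun z _ => ⟨le_rfl, le_rfl⟩⟩,
    fun ε hε => ⟨1, one_pos, fun z z' _ _ _ => ?_⟩⟩
  simpa using hε.le

theorem Sys.FH.mul {S₁ S₂ : Finset ℕ} {f₁ f₂ : (ι → ℤ) → ℝ} (h₁ : S.FH S₁ f₁)
    (h₂ : S.FH S₂ f₂) : S.FH (S₁ ∪ S₂) fun z => f₁ z * f₂ z := by
  obtain ⟨m₁, M₁, hm₁, hb₁⟩ := h₁.bd
  obtain ⟨m₂, M₂, hm₂, hb₂⟩ := h₂.bd
  refine ⟨?_, ⟨m₁ * m₂, M₁ * M₂, by positivity, fun z hz => ?_⟩, fun ε hε => ?_⟩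
  · intro p hp
    rcases mem_union.1 hp with h | h
    · exact h₁.prime p h
    · exact h₂.prime p h
  · obtain ⟨a1, a2⟩ := hb₁ z fun p hp => hz p (mem_union_left _ hp)
    obtain ⟨b1, b2⟩ := hb₂ z fun p hp => hz p (mem_union_right _ hp)
    exact ⟨mul_le_mul a1 b1 hm₂.le (by linarith), mul_le_mul a2 b2 (by linarith) (by linarith)⟩
  · set A : ℝ := |M₁| + |M₂| + 1 with hA
    have hA0 : 0 < A := by positivity
    obtain ⟨q₁, hq₁, h3⟩ := h₁.apx (ε / (2 * A)) (by positivity)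
    obtain ⟨q₂, hq₂, h4⟩ := h₂.apx (ε / (2 * A)) (by positivity)
    refine ⟨q₁ * q₂, Nat.mul_pos hq₁ hq₂, fun z z' hz hz' hc => ?_⟩
    have hdvd : ∀ i, ((q₁ * q₂ : ℕ) : ℤ) ∣ z i - z' i := by
      intro i
      rw [← ZMod.intCast_zmod_eq_zero_iff_dvd]
      push_cast
      rw [hc i, sub_self]
    have hc1 : ∀ i, (z i : ZMod q₁) = (z' i : ZMod q₁) := by
      intro i
      have h5 := (Int.natCast_dvd_natCast.2 (Dvd.intro q₂ rfl : q₁ ∣ q₁ * q₂)).trans (hdvd i)
      have h6 := (ZMod.intCast_zmod_eq_zero_iff_dvd (z i - z' i) q₁).2 h5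
      push_cast at h6
      exact sub_eq_zero.1 h6
    have hc2 : ∀ i, (z i : ZMod q₂) = (z' i : ZMod q₂) := by
      intro i
      have h5 := (Int.natCast_dvd_natCast.2 (Dvd.intro_left q₁ rfl : q₂ ∣ q₁ * q₂)).trans (hdvd i)
      have h6 := (ZMod.intCast_zmod_eq_zero_iff_dvd (z i - z' i) q₂).2 h5
      push_cast at h6
      exact sub_eq_zero.1 h6
    have e1 := h3 z z' (fun p hp => hz p (mem_union_left _ hp))
      (fun p hp => hz' p (mem_union_left _ hp)) hc1
    have e2 := h4 z z' (fun p hp => hz p (mem_union_right _ hp))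
      (fun p hp => hz' p (mem_union_right _ hp)) hc2
    obtain ⟨a1, a2⟩ := hb₁ z fun p hp => hz p (mem_union_left _ hp)
    obtain ⟨b1, b2⟩ := hb₂ z' fun p hp => hz' p (mem_union_right _ hp)
    have a3 : |f₁ z| ≤ A := by
      rw [abs_of_pos (by linarith)]
      have := le_abs_self M₁
      have := abs_nonneg M₂
      linarith
    have b3 : |f₂ z'| ≤ A := by
      rw [abs_of_pos (by linarith)]
      have := le_abs_self M₂
      have := abs_nonneg M₁
      linarith
    calc |f₁ z * f₂ z - f₁ z' * f₂ z'| = |f₁ z * (f₂ z - f₂ z') + (f₁ z - f₁ z') * f₂ z'| := by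
          congr 1; ring
      _ ≤ |f₁ z * (f₂ z - f₂ z')| + |(f₁ z - f₁ z') * f₂ z'| := abs_add_le _ _
      _ = |f₁ z| * |f₂ z - f₂ z'| + |f₁ z - f₁ z'| * |f₂ z'| := by rw [abs_mul, abs_mul]
      _ ≤ A * (ε / (2 * A)) + (ε / (2 * A)) * A := by gcongr
      _ = ε := by field_simp; ring

section padic

variable {p : ℕ} [hp : Fact p.Prime]

/-- integer vectors as p-adic vectors -/
noncomputable def cp (p : ℕ) [Fact p.Prime] {J : Type*} (v : J → ℤ) : J → ℚ_[p] :=
  fun i => (v i : ℚ_[p])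

theorem norm_cp {J : Type*} [Fintype J] {v : J → ℤ} (h : ¬ ∀ i, (p : ℤ) ∣ v i) : ‖cp p v‖ = 1 := by
  apply le_antisymm
  · rw [pi_norm_le_iff_of_nonneg (by norm_num)]
    intro i
    exact Padic.norm_int_le_one _
  · by_contra hcon
    rw [not_le] at hcon
    apply h
    intro i
    rw [← Padic.norm_intCast_lt_one_iff (p := p)]
    exact lt_of_le_of_lt (norm_le_pi_norm (cp p v) i) hcon

theorem norm_cp_le {J : Type*} [Fintype J] (v : J → ℤ) : ‖cp p v‖ ≤ 1 := by
  rw [pi_norm_le_iff_of_nonneg (by norm_num)]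
  intro i
  exact Padic.norm_int_le_one _

/-- local factors from continuous functions on compact sets -/
theorem FH_of_cont {K : Set (ι → ℚ_[p])} (hK : IsCompact K) {ψ : (ι → ℚ_[p]) → ℝ}
    (hψ : ContinuousOn ψ K) (hpos : ∀ u ∈ K, 0 < ψ u) (hL : ∀ z : ι → ℤ, S.Lc p z → cp p z ∈ K)
    {f : (ι → ℤ) → ℝ} (hf : ∀ z, f z = ψ (cp p z)) : S.FH {p} f := by
  have hLc : ∀ z : ι → ℤ, (∀ r ∈ ({p} : Finset ℕ), S.Lc r z) → cp p z ∈ K :=
    fun z hz => hL z (hz p (mem_singleton_self p))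
  refine ⟨fun r hr => by rw [mem_singleton.1 hr]; exact hp.out, ?_, ?_⟩
  · by_cases hne : K.Nonempty
    · obtain ⟨u₀, hu₀, hmin⟩ := hK.exists_isMinOn hne hψ
      obtain ⟨u₁, hu₁, hmax⟩ := hK.exists_isMaxOn hne hψ
      refine ⟨ψ u₀, ψ u₁, hpos u₀ hu₀, fun z hz => ?_⟩
      rw [hf]
      exact ⟨hmin (hLc z hz), hmax (hLc z hz)⟩
    · exact ⟨1, 1, one_pos, fun z hz => absurd ⟨_, hLc z hz⟩ hne⟩
  · intro ε hε
    have h3 := hK.uniformContinuousOn_of_continuous hψ
    rw [Metric.uniformContinuousOn_iff] at h3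
    obtain ⟨δ, hδ, h4⟩ := h3 ε hε
    have hp1 : (1 : ℝ) < p := by exact_mod_cast hp.out.one_lt
    obtain ⟨n, hn⟩ := exists_pow_lt_of_lt_one hδ (inv_lt_one_of_one_lt₀ hp1)
    have hn' : (p : ℝ) ^ (-n : ℤ) < δ := by
      rw [zpow_neg, zpow_natCast, ← inv_pow]
      exact hn
    refine ⟨p ^ n, pow_pos hp.out.pos n, fun z z' hz hz' hc => ?_⟩
    rw [hf, hf]
    have h5 := h4 _ (hLc z hz) _ (hLc z' hz') (by
      rw [dist_eq_norm]
      refine lt_of_le_of_lt ?_ hn'
      have hp0 : (0 : ℝ) < p := by linarith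
      rw [pi_norm_le_iff_of_nonneg (by positivity)]
      intro i
      have h2 : (cp p z - cp p z') i = ((z i - z' i : ℤ) : ℚ_[p]) := by
        rw [Pi.sub_apply]
        unfold cp
        push_cast
        rfl
      rw [h2, Padic.norm_int_le_pow_iff_dvd]
      have h6 : ((p ^ n : ℕ) : ℤ) ∣ z i - z' i := by
        rw [← ZMod.intCast_zmod_eq_zero_iff_dvd, Int.cast_sub, hc i, sub_self]
      exact_mod_cast h6)
    rw [Real.dist_eq] at h5
    exact h5.le

end padic

instance primes_fact (p : Nat.Primes) : Fact (p : ℕ).Prime := ⟨p.2⟩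

theorem FH_prod (P : Finset Nat.Primes) (f : Nat.Primes → (ι → ℤ) → ℝ)
    (h : ∀ p ∈ P, S.FH {(p : ℕ)} (f p)) : ∃ S₀ : Finset ℕ, S.FH S₀ fun z => ∏ p ∈ P, f p z := by
  classical
  induction P using Finset.induction_on with
  | empty => exact ⟨∅, by simpa using FH_one⟩
  | insert a P ha ih =>
    obtain ⟨S₀, hS₀⟩ := ih fun p hp => h p (mem_insert_of_mem hp)
    refine ⟨{(a : ℕ)} ∪ S₀, ?_⟩
    have h1 := (h a (mem_insert_self a P)).mul hS₀
    have h2 : (fun z : ι → ℤ => ∏ p ∈ insert a P, f p z) =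
        fun z => f a z * ∏ p ∈ P, f p z := by
      funext z
      rw [prod_insert ha]
    rw [h2]
    exact h1

/-- extension of scalars -/
def ext (K : Type*) [Field K] {J : Type*} (v : J → ℚ) : J → K := fun i => (v i : K)

theorem ext_smul {K : Type*} [Field K] [CharZero K] {J : Type*} (c : ℚ) (x : J → ℤ) :
    ext K (fun i => c * (x i : ℤ)) = (c : K) • fun i => (x i : K) := by
  funext i
  unfold ext
  rw [Pi.smul_apply, smul_eq_mul]
  push_cast
  rfl

/-- the height of a point with primitive integer coordinates -/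
theorem mulHeight_eq {J : Type} [Fintype J] {P : Projectivization ℚ (J → ℚ)} {x : J → ℤ} {c : ℚ}
    (hc : c ≠ 0) (hx : Pm x) (h : P.rep = fun i => c * (x i : ℤ)) : P.mulHeight = ‖cr x‖ := by
  classical
  have hJ : Nonempty J := by
    by_contra hcon
    rw [not_nonempty_iff] at hcon
    exact hx.ne (funext fun i => isEmptyElim i)
  have h1 : P.rep = c • (((↑) : ℤ → ℚ) ∘ x) := by
    rw [h]
    rfl
  conv_lhs => rw [← P.mk_rep, Projectivization.mulHeight_mk]
  rw [h1, Height.mulHeight_smul_eq_mulHeight _ hc, Rat.mulHeight_eq_max_abs_of_gcd_eq_one (pm_iff.1 hx)]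
  obtain ⟨i₀, hi₀⟩ := Finite.exists_max fun i => |x i|
  have h3 : (⨆ i, |x i|) = |x i₀| := by
    apply le_antisymm
    · exact ciSup_le hi₀
    · exact le_ciSup (Set.finite_range fun i => |x i|).bddAbove i₀
  rw [h3]
  apply le_antisymm
  · have h4 := norm_le_pi_norm (cr x) i₀
    rw [Real.norm_eq_abs] at h4
    refine le_trans ?_ h4
    unfold cr
    push_cast
    exact le_rfl
  · rw [pi_norm_le_iff_of_nonneg (by positivity)]
    intro i
    rw [Real.norm_eq_abs]
    unfold cr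
    have h5 := hi₀ i
    have h6 : ((|x i| : ℤ) : ℝ) ≤ ((|x i₀| : ℤ) : ℝ) := by exact_mod_cast h5
    push_cast at h6 ⊢
    exact h6

end Pool.Agent.K6.H78.FR
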